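import Pool.Agent.H992R2.Mix

/-!
# No `C/n` rate for the relative Fisher information under a fourth moment bound
-/

set_option autoImplicit false
open MeasureTheory ProbabilityTheory Filter Topology Set
open scoped ENNReal NNReal

namespace Pool.Agent.Results.MP_e841a3_pr.FisherRateFails

/-- `f` is a nonnegative, locally absolutely continuous density of `μ` with respect to Lebesgue
measure. -/
def IsACDensity (μ : Measure ℝ) (f : ℝ → ℝ) : Prop :=
  (∀ x, 0 ≤ f x) ∧ (∀ a b, AbsolutelyContinuousOnInterval f a b) ∧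
    μ = volume.withDensity fun x => ENNReal.ofReal (f x)

/-- The relative Fisher information `J(f‖φ) = ∫ f (f'/f + x)² dx` of the law `μ` with respect to the
standard normal law, where `f` is the locally absolutely continuous density of `μ` (it is unique, see
`relFisher_eq`); it is `+∞` if `μ` has no such density. -/
noncomputable def relFisher (μ : Measure ℝ) : ℝ≥0∞ :=
  ⨅ (f : ℝ → ℝ) (_ : IsACDensity μ f), ∫⁻ x, ENNReal.ofReal (f x * (deriv f x / f x + x) ^ 2)

theorem IsACDensity.continuous {μ : Measure ℝ} {f : ℝ → ℝ} (hf : IsACDensity μ f) :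
    Continuous f := by
  rw [continuous_iff_continuousAt]
  intro x
  have h1 := (hf.2.1 (x - 1) (x + 1)).continuousOn
  rw [uIcc_of_le (by linarith)] at h1
  exact h1.continuousAt (Icc_mem_nhds (by linarith) (by linarith))

theorem IsACDensity.unique {μ : Measure ℝ} [IsFiniteMeasure μ] {f g : ℝ → ℝ}
    (hf : IsACDensity μ f) (hg : IsACDensity μ g) : f = g := by
  have h1 : (fun x => ENNReal.ofReal (f x)) =ᵐ[volume] fun x => ENNReal.ofReal (g x) := by
    have hfm := hf.continuous.measurable.ennreal_ofReal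
    have hgm := hg.continuous.measurable.ennreal_ofReal
    rw [← withDensity_eq_iff hfm.aemeasurable hgm.aemeasurable]
    · rw [← hf.2.2, ← hg.2.2]
    · rw [← setLIntegral_univ, ← withDensity_apply _ MeasurableSet.univ, ← hf.2.2]
      exact measure_ne_top _ _
  have h2 : f =ᵐ[volume] g := by
    filter_upwards [h1] with x hx
    rwa [ENNReal.ofReal_eq_ofReal_iff (hf.1 x) (hg.1 x)] at hx
  exact (hf.continuous.ae_eq_iff_eq volume hg.continuous).mp h2

/-- The infimum in the definition is over at most one function. -/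
theorem relFisher_eq {μ : Measure ℝ} [IsFiniteMeasure μ] {f : ℝ → ℝ} (hf : IsACDensity μ f) :
    relFisher μ = ∫⁻ x, ENNReal.ofReal (f x * (deriv f x / f x + x) ^ 2) := by
  apply le_antisymm
  · exact iInf₂_le f hf
  · refine le_iInf₂ fun g hg => ?_
    rw [hf.unique hg]

open Pool.Agent.H992R2 Pool.Agent.H992R2.Mix

theorem hasDerivAt_pdf (c : ℝ) {v : ℝ≥0} (hv : v ≠ 0) (x : ℝ) :
    HasDerivAt (fun x => gaussianPDFReal c v x) (-((x - c) / v) * gaussianPDFReal c v x) x := by
  have hv' : (v : ℝ) ≠ 0 := by exact_mod_cast hv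
  simp only [gaussianPDFReal_def]
  have h1 : HasDerivAt (fun x : ℝ => -(x - c) ^ 2 / (2 * v)) (-((x - c) / v)) x := by
    have h2 : HasDerivAt (fun x : ℝ => x - c) 1 x := (hasDerivAt_id x).sub_const c
    have h3 := ((h2.pow 2).neg).div_const (2 * (v : ℝ))
    convert! h3 using 1
    field_simp
    push_cast
    ring
  have h2 := (h1.exp).const_mul ((Real.sqrt (2 * Real.pi * v))⁻¹)
  convert! h2 using 1
  ring

theorem hasDerivAt_mixD (a : ℝ) {v : ℝ≥0} (hv : v ≠ 0) (n : ℕ) (x : ℝ) :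
    HasDerivAt (mixD a v n) (mixD' a v n x) x := by
  unfold mixD mixD'
  have := HasDerivAt.fun_sum (u := (Finset.univ : Finset (Fin n → Bool)))
    (A := fun b x => gaussianPDFReal (cn a n b) v x)
    (A' := fun b => -((x - cn a n b) / v) * gaussianPDFReal (cn a n b) v x) (x := x)
    (fun b _ => hasDerivAt_pdf (cn a n b) hv x)
  exact this.const_mul _

theorem mixD_pos (a : ℝ) {v : ℝ≥0} (hv : v ≠ 0) (n : ℕ) (x : ℝ) : 0 < mixD a v n x := by
  unfold mixD
  have : 0 < ∑ b : Fin n → Bool, gaussianPDFReal (cn a n b) v x :=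
    Finset.sum_pos (fun b _ => gaussianPDFReal_pos _ _ _ hv) Finset.univ_nonempty
  positivity

theorem continuous_pdf (c : ℝ) (v : ℝ≥0) : Continuous (fun x => gaussianPDFReal c v x) := by
  simp only [gaussianPDFReal_def]
  fun_prop

theorem continuous_mixD (a : ℝ) (v : ℝ≥0) (n : ℕ) : Continuous (mixD a v n) := by
  unfold mixD
  exact continuous_const.mul (continuous_finsetSum _ fun b _ => continuous_pdf _ _)

theorem continuous_mixD' (a : ℝ) (v : ℝ≥0) (n : ℕ) : Continuous (mixD' a v n) := by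
  unfold mixD'
  refine continuous_const.mul (continuous_finsetSum _ fun b _ => ?_)
  exact (by fun_prop : Continuous fun x : ℝ => -((x - cn a n b) / v)).mul (continuous_pdf _ _)

theorem mix_AC (a : ℝ) {v : ℝ≥0} (hv : v ≠ 0) (n : ℕ) :
    IsACDensity (mixM a v n) (mixD a v n) := by
  refine ⟨fun x => (mixD_pos a hv n x).le, fun p q => ?_, mixM_eq a hv n⟩
  have h1 : ContDiff ℝ 1 (mixD a v n) := by
    rw [contDiff_one_iff_deriv]
    refine ⟨fun x => (hasDerivAt_mixD a hv n x).differentiableAt, ?_⟩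
    have : deriv (mixD a v n) = mixD' a v n := funext fun x => (hasDerivAt_mixD a hv n x).deriv
    rw [this]
    exact continuous_mixD' a v n
  exact h1.contDiffOn.absolutelyContinuousOnInterval

theorem relFisher_mix (a : ℝ) {v : ℝ≥0} (hv : v ≠ 0) (n : ℕ) :
    relFisher (mixM a v n) =
      ∫⁻ x, ENNReal.ofReal (mixD a v n x * (mixD' a v n x / mixD a v n x + x) ^ 2) := by
  have := mixM_prob a v n
  rw [relFisher_eq (mix_AC a hv n)]
  simp_rw [(hasDerivAt_mixD a hv n _).deriv]

theorem lintegral_sq_shift (c : ℝ) (v : ℝ≥0) :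
    ∫⁻ x, ENNReal.ofReal ((x - c) ^ 2) ∂(gaussianReal c v) = v := by
  have h1 : MemLp (fun y : ℝ => y) 2 (gaussianReal c v) := memLp_id_gaussianReal 2
  have h2 := h1.ofReal_variance_eq
  rw [evariance_eq_lintegral_ofReal] at h2
  have h3 : Var[fun y : ℝ => y; gaussianReal c v] = v := variance_id_gaussianReal
  have h4 : ∫ y, y ∂(gaussianReal c v) = c := by simp
  rw [h3, h4] at h2
  simp only [ENNReal.ofReal_coe_nnreal] at h2
  exact h2.symm

/-- Upper bound for `n = 1`. -/
theorem relFisher_upper {a : ℝ} (ha0 : 0 ≤ a) (ha : a ≤ 1) {v : ℝ≥0} (hv : v ≠ 0)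
    (hv1 : (v : ℝ) ≤ 1) :
    relFisher (mixM a v 1) ≤ ENNReal.ofReal (4 / v) := by
  have hv' : (0 : ℝ) < v := by positivity
  rw [relFisher_mix a hv 1]
  set g : (Fin 1 → Bool) → ℝ → ℝ := fun b x => -((x - cn a 1 b) / v) + x with hg
  have hpt : ∀ x, mixD a v 1 x * (mixD' a v 1 x / mixD a v 1 x + x) ^ 2 ≤
      (2 ^ 1)⁻¹ * ∑ b : Fin 1 → Bool, gaussianPDFReal (cn a 1 b) v x * (g b x) ^ 2 := by
    intro x
    have hpos := mixD_pos a hv 1 x
    set F := mixD a v 1 x with hF
    have h1 : mixD' a v 1 x + x * F = (2 ^ 1)⁻¹ *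
        ∑ b : Fin 1 → Bool, gaussianPDFReal (cn a 1 b) v x * g b x := by
      rw [hF, mixD', mixD, mul_left_comm, ← mul_add, Finset.mul_sum, ← Finset.sum_add_distrib]
      congr 1
      refine Finset.sum_congr rfl fun b _ => ?_
      simp only [hg]; ring
    have h2 : (∑ b : Fin 1 → Bool, gaussianPDFReal (cn a 1 b) v x * g b x) ^ 2 ≤
        (∑ b : Fin 1 → Bool, gaussianPDFReal (cn a 1 b) v x) *
        ∑ b : Fin 1 → Bool, gaussianPDFReal (cn a 1 b) v x * (g b x) ^ 2 := by
      have h3 := Finset.sum_mul_sq_le_sq_mul_sq (Finset.univ : Finset (Fin 1 → Bool))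
        (fun b => Real.sqrt (gaussianPDFReal (cn a 1 b) v x))
        (fun b => Real.sqrt (gaussianPDFReal (cn a 1 b) v x) * g b x)
      have h4 : ∀ b : Fin 1 → Bool, Real.sqrt (gaussianPDFReal (cn a 1 b) v x) ^ 2 =
          gaussianPDFReal (cn a 1 b) v x := fun b => Real.sq_sqrt (gaussianPDFReal_nonneg _ _ _)
      simp only [mul_pow, h4] at h3
      have h5 : ∀ b : Fin 1 → Bool, Real.sqrt (gaussianPDFReal (cn a 1 b) v x) *
          (Real.sqrt (gaussianPDFReal (cn a 1 b) v x) * g b x) =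
          gaussianPDFReal (cn a 1 b) v x * g b x := by
        intro b
        rw [← mul_assoc, ← sq, h4]
      simp only [h5] at h3
      exact h3
    have h6 : F * (mixD' a v 1 x / F + x) ^ 2 = (mixD' a v 1 x + x * F) ^ 2 / F := by
      field_simp
    rw [h6, h1, mul_pow, div_le_iff₀ hpos]
    calc ((2 ^ 1)⁻¹ : ℝ) ^ 2 * (∑ b : Fin 1 → Bool, gaussianPDFReal (cn a 1 b) v x * g b x) ^ 2
        ≤ ((2 ^ 1)⁻¹ : ℝ) ^ 2 * ((∑ b : Fin 1 → Bool, gaussianPDFReal (cn a 1 b) v x) *
        ∑ b : Fin 1 → Bool, gaussianPDFReal (cn a 1 b) v x * (g b x) ^ 2) := by gcongr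
      _ = _ := by rw [hF, mixD]; ring
  have hcn : ∀ b : Fin 1 → Bool, (cn a 1 b) ^ 2 ≤ 1 := by
    intro b
    simp only [cn, Fin.sum_univ_one, Nat.cast_one, Real.sqrt_one, div_one]
    rw [mul_pow, sg_sq, mul_one]
    nlinarith
  calc ∫⁻ x, ENNReal.ofReal (mixD a v 1 x * (mixD' a v 1 x / mixD a v 1 x + x) ^ 2)
      ≤ ∫⁻ x, ∑ b : Fin 1 → Bool, ENNReal.ofReal ((2 ^ 1)⁻¹) * (gaussianPDF (cn a 1 b) v x *
          ENNReal.ofReal (2 + 2 / (v : ℝ) ^ 2 * (x - cn a 1 b) ^ 2)) := by
        refine lintegral_mono fun x => ?_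
        refine (ENNReal.ofReal_le_ofReal (hpt x)).trans ?_
        rw [Finset.mul_sum, ENNReal.ofReal_sum_of_nonneg (fun b _ =>
          mul_nonneg (by positivity) (mul_nonneg (gaussianPDFReal_nonneg _ _ _) (sq_nonneg _)))]
        refine Finset.sum_le_sum fun b _ => ?_
        rw [gaussianPDF, ← ENNReal.ofReal_mul (gaussianPDFReal_nonneg _ _ _),
          ← ENNReal.ofReal_mul (by positivity)]
        apply ENNReal.ofReal_le_ofReal
        have hp := gaussianPDFReal_nonneg (cn a 1 b) v x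
        gcongr
        simp only [hg]
        set c := cn a 1 b
        have h7 : -((x - c) / v) + x = c + (x - c) * (1 - 1 / v) := by field_simp; ring
        rw [h7]
        have h8 : (1 - 1 / (v : ℝ)) ^ 2 ≤ 1 / (v : ℝ) ^ 2 := by
          have h9 : 1 ≤ 1 / (v : ℝ) := by rw [le_div_iff₀ hv']; linarith
          have h10 : 1 / (v : ℝ) ^ 2 = (1 / (v : ℝ)) ^ 2 := by rw [div_pow, one_pow]
          rw [h10]
          nlinarith
        have h11 := hcn b
        have h12 : (c + (x - c) * (1 - 1 / v)) ^ 2 ≤ 2 * c ^ 2 + 2 * ((x - c) ^ 2 * (1 - 1 / v) ^ 2) := by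
          nlinarith [sq_nonneg (c - (x - c) * (1 - 1 / v))]
        have h13 : (x - c) ^ 2 * (1 - 1 / (v : ℝ)) ^ 2 ≤ (x - c) ^ 2 * (1 / (v : ℝ) ^ 2) := by
          gcongr
        have h14 : 2 / (v : ℝ) ^ 2 * (x - c) ^ 2 = 2 * ((x - c) ^ 2 * (1 / (v : ℝ) ^ 2)) := by ring
        rw [h14]
        linarith
    _ = ∑ b : Fin 1 → Bool, ENNReal.ofReal ((2 ^ 1)⁻¹) *
          ∫⁻ x, ENNReal.ofReal (2 + 2 / (v : ℝ) ^ 2 * (x - cn a 1 b) ^ 2)
            ∂(gaussianReal (cn a 1 b) v) := by
        have hm : ∀ b : Fin 1 → Bool, Measurable fun x : ℝ =>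
          ENNReal.ofReal (2 + 2 / (v : ℝ) ^ 2 * (x - cn a 1 b) ^ 2) := fun b => by fun_prop
        have hm2 : ∀ b : Fin 1 → Bool, Measurable fun x : ℝ => gaussianPDF (cn a 1 b) v x *
          ENNReal.ofReal (2 + 2 / (v : ℝ) ^ 2 * (x - cn a 1 b) ^ 2) := fun b =>
            (measurable_gaussianPDF _ _).mul (hm b)
        rw [lintegral_finsetSum _ fun b _ => (hm2 b).const_mul _]
        refine Finset.sum_congr rfl fun b _ => ?_
        rw [lintegral_const_mul _ (hm2 b),
          gaussianReal_of_var_ne_zero _ hv,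
          lintegral_withDensity_eq_lintegral_mul _ (measurable_gaussianPDF _ _) (hm b)]
        rfl
    _ ≤ ∑ b : Fin 1 → Bool, ENNReal.ofReal ((2 ^ 1)⁻¹) * ENNReal.ofReal (4 / v) := by
        gcongr with b _
        have h1 : ∀ x : ℝ, ENNReal.ofReal (2 + 2 / (v : ℝ) ^ 2 * (x - cn a 1 b) ^ 2) =
            ENNReal.ofReal 2 + ENNReal.ofReal (2 / (v : ℝ) ^ 2) *
              ENNReal.ofReal ((x - cn a 1 b) ^ 2) := by
          intro x
          rw [ENNReal.ofReal_add (by norm_num) (by positivity), ENNReal.ofReal_mul (by positivity)]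
        simp_rw [h1]
        rw [lintegral_add_left measurable_const, lintegral_const_mul _ (by fun_prop),
          lintegral_sq_shift]
        simp only [lintegral_const, measure_univ, mul_one]
        rw [← ENNReal.ofReal_coe_nnreal, ← ENNReal.ofReal_mul (by positivity),
          ← ENNReal.ofReal_add (by norm_num) (by positivity)]
        apply ENNReal.ofReal_le_ofReal
        have h2 : 2 / (v : ℝ) ^ 2 * v = 2 / v := by field_simp
        rw [h2]
        have h3 : 2 ≤ 2 / (v : ℝ) := by rw [le_div_iff₀ hv']; linarith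
        have h4 : 4 / (v : ℝ) = 2 / v + 2 / v := by ring
        linarith
    _ = ENNReal.ofReal (4 / v) := by
        rw [Finset.sum_const, Finset.card_univ, Fintype.card_fun, Fintype.card_bool,
          Fintype.card_fin, nsmul_eq_mul, ← mul_assoc, ← ENNReal.ofReal_natCast,
          ← ENNReal.ofReal_mul (by positivity)]
        norm_num

theorem integral_cos_mix (a : ℝ) (v : ℝ≥0) (n : ℕ) (t : ℝ) :
    ∫ x, Real.cos (t * x) ∂(mixM a v n) =
      Real.exp (-(v * t ^ 2 / 2)) * Real.cos (t * (a / Real.sqrt n)) ^ n := by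
  have hprob := mixM_prob a v n
  have h1 := charFun_mixM a v n t
  rw [charFun_apply_real] at h1
  have hint : Integrable (fun x : ℝ => Complex.exp (t * x * Complex.I)) (mixM a v n) := by
    apply Integrable.of_bound (C := 1)
    · fun_prop
    · refine Filter.Eventually.of_forall fun x => ?_
      have : (t : ℂ) * x * Complex.I = ((t * x : ℝ) : ℂ) * Complex.I := by push_cast; ring
      rw [this, Complex.norm_exp_ofReal_mul_I]
  have h2 := integral_re hint
  have h3 : ∀ x : ℝ, RCLike.re (Complex.exp (t * x * Complex.I)) = Real.cos (t * x) := by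
    intro x
    have : (t : ℂ) * x * Complex.I = ((t * x : ℝ) : ℂ) * Complex.I := by push_cast; ring
    rw [this]
    exact Complex.exp_ofReal_mul_I_re _
  simp_rw [h3] at h2
  rw [h2, h1]
  have h4 : Complex.exp (-(v * t ^ 2 / 2)) * (Complex.cos (t * (a / Real.sqrt n))) ^ n =
      ((Real.exp (-(v * t ^ 2 / 2)) * Real.cos (t * (a / Real.sqrt n)) ^ n : ℝ) : ℂ) := by
    push_cast
    rfl
  rw [h4]
  exact Complex.ofReal_re _

theorem integral_mix_eq (a : ℝ) {v : ℝ≥0} (hv : v ≠ 0) (n : ℕ) (g : ℝ → ℝ) :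
    ∫ x, g x ∂(mixM a v n) = ∫ x, mixD a v n x * g x := by
  rw [mixM_eq a hv n, integral_withDensity_eq_integral_toReal_smul
    (continuous_mixD a v n).measurable.ennreal_ofReal
    (Filter.Eventually.of_forall fun x => ENNReal.ofReal_lt_top)]
  refine integral_congr_ae (Filter.Eventually.of_forall fun x => ?_)
  simp only [smul_eq_mul]
  rw [ENNReal.toReal_ofReal (mixD_pos a hv n x).le]

theorem integrable_mix_iff (a : ℝ) {v : ℝ≥0} (hv : v ≠ 0) (n : ℕ) (g : ℝ → ℝ) :
    Integrable g (mixM a v n) ↔ Integrable (fun x => mixD a v n x * g x) := by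
  rw [mixM_eq a hv n, integrable_withDensity_iff_integrable_smul'
    (continuous_mixD a v n).measurable.ennreal_ofReal
    (Filter.Eventually.of_forall fun x => ENNReal.ofReal_lt_top)]
  have : ∀ x, (ENNReal.ofReal (mixD a v n x)).toReal • g x = mixD a v n x * g x := by
    intro x
    rw [ENNReal.toReal_ofReal (mixD_pos a hv n x).le, smul_eq_mul]
  simp_rw [this]

theorem integrable_mixD (a : ℝ) {v : ℝ≥0} (hv : v ≠ 0) (n : ℕ) : Integrable (mixD a v n) := by
  have hprob := mixM_prob a v n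
  have := (integrable_mix_iff a hv n (fun _ => (1 : ℝ))).mp (integrable_const _)
  simpa using this

theorem integrable_mixD' (a : ℝ) {v : ℝ≥0} (hv : v ≠ 0) (n : ℕ) : Integrable (mixD' a v n) := by
  unfold mixD'
  refine Integrable.const_mul ?_ _
  refine integrable_finsetSum _ fun b _ => ?_
  have h1 : Integrable (fun x : ℝ => -((x - cn a n b) / v)) (gaussianReal (cn a n b) v) := by
    have h2 := shift_integrable (cn a n b) v 1
    simp only [pow_one] at h2
    exact ((h2.sub (integrable_const _)).div_const _).neg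
  rw [gaussianReal_of_var_ne_zero _ hv, integrable_withDensity_iff_integrable_smul'
    (measurable_gaussianPDF _ _) (Filter.Eventually.of_forall fun x => gaussianPDF_lt_top)] at h1
  refine h1.congr (Filter.Eventually.of_forall fun x => ?_)
  simp only [smul_eq_mul, toReal_gaussianPDF]
  ring

theorem mix_second (a : ℝ) (v : ℝ≥0) {n : ℕ} (hn : 1 ≤ n) :
    ∫ x, x ^ 2 ∂(mixM a v n) = a ^ 2 + v := by
  rw [integral_mixM a v n fun b => shift_integrable _ v 2]
  simp_rw [m2]
  rw [Finset.sum_add_distrib]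
  have h1 := sum_sq fun _ : Fin n => a / Real.sqrt n
  have h2 : ∑ b : Fin n → Bool, cn a n b ^ 2 = 2 ^ n * ∑ _i : Fin n, (a / Real.sqrt n) ^ 2 := h1
  have hn' : (0 : ℝ) < n := by exact_mod_cast hn
  rw [h2]
  simp only [Finset.sum_const, Finset.card_univ, Fintype.card_fun, Fintype.card_bool,
    Fintype.card_fin, nsmul_eq_mul, smul_eq_mul]
  rw [div_pow, Real.sq_sqrt hn'.le]
  push_cast
  field_simp

theorem ofReal_integral_le {g : ℝ → ℝ} (hg : Integrable g) :
    ENNReal.ofReal (∫ x, g x) ≤ ∫⁻ x, ENNReal.ofReal (g x) := by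
  have h1 : ∫⁻ x, ENNReal.ofReal (g x) = ∫⁻ x, ENNReal.ofReal (max (g x) 0) := by
    refine lintegral_congr fun x => ?_
    rcases le_total (g x) 0 with h | h
    · rw [max_eq_right h, ENNReal.ofReal_of_nonpos h, ENNReal.ofReal_zero]
    · rw [max_eq_left h]
  rw [h1, ← ofReal_integral_eq_lintegral_ofReal hg.pos_part
    (Filter.Eventually.of_forall fun x => le_max_right _ _)]
  apply ENNReal.ofReal_le_ofReal
  exact integral_mono hg hg.pos_part fun x => le_max_left _ _

/-- Lower bound for the relative Fisher information of the mixture through `sin (θ x)`. -/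
theorem relFisher_lower (a : ℝ) {v : ℝ≥0} (hv : v ≠ 0) {n : ℕ} (hn : 1 ≤ n) (θ l : ℝ) :
    ENNReal.ofReal (-(l * (θ * (Real.exp (-(v * θ ^ 2 / 2)) *
      Real.cos (θ * (a / Real.sqrt n)) ^ n))) - l ^ 2 / 2 * ((1 - Real.exp (-(v * (2 * θ) ^ 2 / 2)) *
      Real.cos (2 * θ * (a / Real.sqrt n)) ^ n) / 2) - (a ^ 2 + v)) ≤ relFisher (mixM a v n) := by
  have hprob := mixM_prob a v n
  rw [relFisher_mix a hv n]
  set f := mixD a v n with hf
  set f' := mixD' a v n with hf'
  have hfi : Integrable f := integrable_mixD a hv n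
  have hfi' : Integrable f' := integrable_mixD' a hv n
  have hsinb : ∀ x : ℝ, ‖Real.sin (θ * x)‖ ≤ 1 := fun x => Real.abs_sin_le_one _
  have hcosb : ∀ x : ℝ, ‖θ * Real.cos (θ * x)‖ ≤ |θ| := by
    intro x
    rw [norm_mul, Real.norm_eq_abs, Real.norm_eq_abs]
    have := Real.abs_cos_le_one (θ * x)
    nlinarith [abs_nonneg θ]
  have i1 : Integrable (fun x => f' x * Real.sin (θ * x)) :=
    hfi'.mul_bdd (c := 1) (by fun_prop) (Filter.Eventually.of_forall hsinb)
  have i2 : Integrable (fun x => f x * Real.sin (θ * x)) :=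
    hfi.mul_bdd (c := 1) (by fun_prop) (Filter.Eventually.of_forall hsinb)
  have i3 : Integrable (fun x => f x * (θ * Real.cos (θ * x))) :=
    hfi.mul_bdd (c := |θ|) (by fun_prop) (Filter.Eventually.of_forall hcosb)
  have hsin2 : ∀ x : ℝ, ‖Real.sin (θ * x) ^ 2‖ ≤ 1 := by
    intro x
    rw [Real.norm_eq_abs, abs_of_nonneg (sq_nonneg _)]
    exact Real.sin_sq_le_one _
  have i4 : Integrable (fun x => f x * Real.sin (θ * x) ^ 2) :=
    hfi.mul_bdd (c := 1) (by fun_prop) (Filter.Eventually.of_forall hsin2)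
  have i5 : Integrable (fun x => f x * x ^ 2) :=
    (integrable_mix_iff a hv n (fun x => x ^ 2)).mp
      (integrable_mixM a v n fun b => shift_integrable _ v 2)
  -- integration by parts
  have e1 : ∫ x, f' x * Real.sin (θ * x) = -(θ * (Real.exp (-(v * θ ^ 2 / 2)) *
      Real.cos (θ * (a / Real.sqrt n)) ^ n)) := by
    have h1 := integral_mul_deriv_eq_deriv_mul_of_integrable
      (u := fun x => Real.sin (θ * x)) (u' := fun x => θ * Real.cos (θ * x)) (v := f) (v' := f')
      (fun x _ => by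
        have h2 : HasDerivAt (fun x : ℝ => θ * x) θ x := by
          simpa using (hasDerivAt_id x).const_mul θ
        have h3 := h2.sin
        rw [mul_comm] at h3
        exact h3)
      (fun x _ => hasDerivAt_mixD a hv n x)
      (by
        refine i1.congr (Filter.Eventually.of_forall fun x => ?_)
        simp only [Pi.mul_apply]; ring)
      (by
        refine i3.congr (Filter.Eventually.of_forall fun x => ?_)
        simp only [Pi.mul_apply]; ring)
      (by
        refine i2.congr (Filter.Eventually.of_forall fun x => ?_)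
        simp only [Pi.mul_apply]; ring)
    have h2 : ∫ x, f' x * Real.sin (θ * x) = ∫ x, Real.sin (θ * x) * f' x := by
      refine integral_congr_ae (Filter.Eventually.of_forall fun x => ?_)
      simp only; ring
    rw [h2, h1, ← integral_cos_mix a v n θ, integral_mix_eq a hv n, ← integral_const_mul]
    congr 1
    refine integral_congr_ae (Filter.Eventually.of_forall fun x => ?_)
    simp only; ring
  have e2 : ∫ x, f x * Real.sin (θ * x) ^ 2 = (1 - Real.exp (-(v * (2 * θ) ^ 2 / 2)) *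
      Real.cos (2 * θ * (a / Real.sqrt n)) ^ n) / 2 := by
    rw [← integral_mix_eq a hv n, ← integral_cos_mix a v n (2 * θ)]
    have h1 : ∀ x : ℝ, Real.sin (θ * x) ^ 2 = 1 / 2 - Real.cos (2 * θ * x) / 2 := by
      intro x
      rw [Real.sin_sq_eq_half_sub, mul_assoc]
    simp_rw [h1]
    rw [integral_sub (integrable_const _), integral_const, integral_div]
    · simp; ring
    · refine Integrable.div_const ?_ _
      apply Integrable.of_bound (C := 1) (by fun_prop)
      exact Filter.Eventually.of_forall fun x => Real.abs_cos_le_one _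
  have e3 : ∫ x, f x * x ^ 2 = a ^ 2 + v := by
    rw [← integral_mix_eq a hv n, mix_second a v hn]
  have i6 : Integrable (fun x => l * (f' x * Real.sin (θ * x)) -
      l ^ 2 / 2 * (f x * Real.sin (θ * x) ^ 2)) := (i1.const_mul _).sub (i4.const_mul _)
  have e4 : ∫ x, (l * (f' x * Real.sin (θ * x)) - l ^ 2 / 2 * (f x * Real.sin (θ * x) ^ 2) -
      f x * x ^ 2) = -(l * (θ * (Real.exp (-(v * θ ^ 2 / 2)) *
      Real.cos (θ * (a / Real.sqrt n)) ^ n))) - l ^ 2 / 2 * ((1 - Real.exp (-(v * (2 * θ) ^ 2 / 2)) *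
      Real.cos (2 * θ * (a / Real.sqrt n)) ^ n) / 2) - (a ^ 2 + v) := by
    rw [integral_sub i6 i5, integral_sub (i1.const_mul _) (i4.const_mul _), integral_const_mul,
      integral_const_mul, e1, e2, e3]
    ring
  rw [← e4]
  refine (ofReal_integral_le (i6.sub i5)).trans (lintegral_mono fun x => ?_)
  apply ENNReal.ofReal_le_ofReal
  have hpos : 0 < f x := mixD_pos a hv n x
  set S := Real.sin (θ * x)
  have h1 : f x * (f' x / f x + x) ^ 2 = (f' x + x * f x) ^ 2 / f x := by field_simp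
  rw [h1, le_div_iff₀ hpos]
  change (l * (f' x * S) - l ^ 2 / 2 * (f x * S ^ 2) - f x * x ^ 2) * f x ≤ _
  nlinarith [sq_nonneg (f' x - l * f x * S), sq_nonneg (f' x + 2 * x * f x)]

/-- The law of the normalised sum. -/
theorem law_sum (a : ℝ) (v : ℝ≥0) {n : ℕ} (hn : 1 ≤ n) :
    (Measure.infinitePi (fun _ : ℕ => mixM a v 1)).map
      (fun ω : ℕ → ℝ => (∑ i ∈ Finset.range n, ω i) / Real.sqrt n) = mixM a v n := by
  have hp1 := mixM_prob a v 1
  have hpn := mixM_prob a v n
  have hn' : (0 : ℝ) < n := by exact_mod_cast hn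
  set P := Measure.infinitePi (fun _ : ℕ => mixM a v 1) with hP
  have hS : Measurable (fun ω : ℕ → ℝ => ∑ i ∈ Finset.range n, ω i) := by fun_prop
  have hind : iIndepFun (fun (i : ℕ) (ω : ℕ → ℝ) => ω i) P :=
    iIndepFun_infinitePi (P := fun _ : ℕ => mixM a v 1) (X := fun _ x => x)
      (fun _ => measurable_id)
  have hsum := iIndepFun.charFun_map_fun_finsetSum_eq_prod (s := Finset.range n)
    (X := fun (i : ℕ) (ω : ℕ → ℝ) => ω i) (P := P)
    (fun i _ => (measurable_pi_apply i).aemeasurable) (hind.restrict _)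
  have hcomp : P.map (fun ω : ℕ → ℝ => (∑ i ∈ Finset.range n, ω i) / Real.sqrt n) =
      (P.map (fun ω : ℕ → ℝ => ∑ i ∈ Finset.range n, ω i)).map
        (fun x => (Real.sqrt n)⁻¹ • x) := by
    rw [Measure.map_map (by fun_prop) hS]
    congr 1
    funext ω
    simp only [Function.comp_apply, smul_eq_mul, div_eq_inv_mul]
  have hpr : IsProbabilityMeasure (P.map
      (fun ω : ℕ → ℝ => (∑ i ∈ Finset.range n, ω i) / Real.sqrt n)) :=
    Measure.isProbabilityMeasure_map (by fun_prop)
  apply Measure.ext_of_charFun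
  funext t
  rw [hcomp, charFun_map_smul, hsum, Finset.prod_apply]
  have h1 : ∀ i ∈ Finset.range n, charFun (P.map fun ω : ℕ → ℝ => ω i) ((Real.sqrt n)⁻¹ • t) =
      Complex.exp (-(v * ((Real.sqrt n)⁻¹ * t : ℝ) ^ 2 / 2)) *
        Complex.cos (((Real.sqrt n)⁻¹ * t : ℝ) * a) := by
    intro i _
    rw [hP, Measure.infinitePi_map_eval, charFun_mixM]
    simp
  rw [Finset.prod_congr rfl h1, Finset.prod_const, Finset.card_range, mul_pow, charFun_mixM,
    ← Complex.exp_nat_mul]
  have hsq : ((Real.sqrt n : ℝ) : ℂ) ^ 2 = n := by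
    rw [← Complex.ofReal_pow, Real.sq_sqrt hn'.le]
    simp
  have hsq0 : ((Real.sqrt n : ℝ) : ℂ) ≠ 0 := by
    intro h
    rw [h] at hsq
    have : (n : ℂ) ≠ 0 := by exact_mod_cast hn'.ne'
    apply this
    rw [← hsq]
    simp
  congr 1
  · congr 1
    push_cast
    field_simp
    rw [hsq]
    ring
  · congr 2
    push_cast
    field_simp

theorem sum_one (f : Bool → ℝ) : ∑ b : Fin 1 → Bool, f (b 0) = f true + f false := by
  rw [Fintype.sum_equiv (Equiv.funUnique (Fin 1) Bool) (fun b => f (b 0)) f (fun b => by simp),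
    Fintype.sum_bool]

theorem cn_one (a : ℝ) (b : Fin 1 → Bool) : cn a 1 b = a * sg (b 0) := by
  simp [cn]

theorem mix_mean (a : ℝ) (v : ℝ≥0) : ∫ x, x ∂(mixM a v 1) = 0 := by
  rw [integral_mixM a v 1 fun b => by simpa using shift_integrable (cn a 1 b) v 1]
  simp_rw [m1, cn_one]
  rw [sum_one (fun c => a * sg c)]
  simp [sg]

theorem mix_fourth (a : ℝ) (v : ℝ≥0) :
    ∫ x, x ^ 4 ∂(mixM a v 1) = a ^ 4 + 6 * a ^ 2 * v + 3 * (v : ℝ) ^ 2 := by
  rw [integral_mixM a v 1 fun b => shift_integrable (cn a 1 b) v 4]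
  simp_rw [m4, cn_one]
  rw [sum_one (fun c => (a * sg c) ^ 4 + 6 * (a * sg c) ^ 2 * v + 3 * (v : ℝ) ^ 2)]
  simp [sg]
  ring

/-- Disproof of the Fisher information question: for `M = 3` no finite constant works. -/
theorem result :
    ¬ ∀ M : ℝ, ∃ C : ℝ, ∀ (Ω : Type) (_ : MeasurableSpace Ω) (P : Measure Ω)
      (_ : IsProbabilityMeasure P) (X : ℕ → Ω → ℝ),
      (∀ i, Measurable (X i)) → iIndepFun X P → (∀ i, IdentDistrib (X i) (X 0) P P) →
      P.map (X 0) ≪ volume →
      ∫ ω, X 0 ω ∂P = 0 → ∫ ω, X 0 ω ^ 2 ∂P = 1 →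
      Integrable (fun ω => X 0 ω ^ 4) P → ∫ ω, X 0 ω ^ 4 ∂P ≤ M →
      relFisher (P.map (X 0)) ≠ ∞ →
      ∀ n : ℕ, 1 ≤ n →
        relFisher (P.map (fun ω => (∑ i ∈ Finset.range n, X i ω) / Real.sqrt n)) ≤
          ENNReal.ofReal (C / n) * relFisher (P.map (X 0)) := by
  intro H
  obtain ⟨C, hC⟩ := H 3
  obtain ⟨n, hn⟩ := exists_nat_ge (max 1 (20 * C))
  have hn1 : (1 : ℝ) ≤ n := (le_max_left _ _).trans hn
  have hn2 : 20 * C ≤ n := (le_max_right _ _).trans hn
  have hn1' : 1 ≤ n := by exact_mod_cast hn1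
  have hn0 : (0 : ℝ) < n := by linarith
  -- parameters
  let v : ℝ≥0 := ⟨1 / (40 * n), by positivity⟩
  have hvr : (v : ℝ) = 1 / (40 * n) := rfl
  have hv' : (0 : ℝ) < v := by rw [hvr]; positivity
  have hv : v ≠ 0 := by
    intro h
    rw [h] at hv'
    simp at hv'
  have hv40 : (v : ℝ) ≤ 1 / 40 := by
    rw [hvr, div_le_div_iff₀ (by positivity) (by norm_num)]
    linarith
  set a : ℝ := Real.sqrt (1 - v) with ha
  have ha2 : a ^ 2 = 1 - v := Real.sq_sqrt (by linarith)
  have ha0 : 0 < a := Real.sqrt_pos.mpr (by linarith)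
  have ha1 : a ≤ 1 := by
    rw [ha]
    exact Real.sqrt_le_one.mpr (by linarith) |> fun h => h
  have hprob := mixM_prob a v 1
  let P : Measure (ℕ → ℝ) := Measure.infinitePi (fun _ : ℕ => mixM a v 1)
  have hP : IsProbabilityMeasure P := by infer_instance
  have hmap : ∀ i, P.map (fun ω : ℕ → ℝ => ω i) = mixM a v 1 := fun i =>
    Measure.infinitePi_map_eval (fun _ : ℕ => mixM a v 1) i
  have hint : ∀ f : ℝ → ℝ, Continuous f → ∫ ω, f (ω 0) ∂P = ∫ x, f x ∂(mixM a v 1) := by
    intro f hf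
    rw [← hmap 0, integral_map (measurable_pi_apply 0).aemeasurable hf.aestronglyMeasurable]
  have hup := relFisher_upper ha0.le ha1 hv (by linarith)
  have key := hC (ℕ → ℝ) inferInstance P hP (fun i ω => ω i) (fun i => measurable_pi_apply i)
    (iIndepFun_infinitePi (P := fun _ : ℕ => mixM a v 1) (X := fun _ x => x)
      (fun _ => measurable_id))
    (fun i => ⟨(measurable_pi_apply i).aemeasurable, (measurable_pi_apply 0).aemeasurable,
      by rw [hmap i, hmap 0]⟩)
    (by rw [hmap 0, mixM_eq a hv 1]; exact withDensity_absolutelyContinuous _ _)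
    (by rw [hint (fun x => x) continuous_id, mix_mean])
    (by
      rw [hint (fun x => x ^ 2) (by fun_prop), mix_second a v le_rfl, ha2]
      ring)
    (by
      have h1 : Integrable (fun x : ℝ => x ^ 4) (mixM a v 1) :=
        integrable_mixM a v 1 fun b => shift_integrable _ v 4
      rw [← hmap 0] at h1
      exact h1.comp_measurable (measurable_pi_apply 0))
    (by
      rw [hint (fun x => x ^ 4) (by fun_prop), mix_fourth]
      have h4 : a ^ 4 = (1 - v) ^ 2 := by rw [← ha2]; ring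
      rw [h4, ha2]
      nlinarith)
    (by
      rw [hmap 0]
      exact ne_top_of_le_ne_top ENNReal.ofReal_ne_top hup)
    n hn1'
  simp only [hmap 0] at key
  rw [show P = Measure.infinitePi (fun _ : ℕ => mixM a v 1) from rfl, law_sum a v hn1'] at key
  -- the lower bound
  have hsn : 0 < Real.sqrt n := Real.sqrt_pos.mpr hn0
  set θ : ℝ := Real.pi * Real.sqrt n / a with hθ
  have hθ0 : 0 < θ := by positivity
  have hθa : θ * (a / Real.sqrt n) = Real.pi := by rw [hθ]; field_simp
  have h2θa : 2 * θ * (a / Real.sqrt n) = 2 * Real.pi := by rw [mul_assoc, hθa]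
  set E : ℝ := Real.exp (-(v * θ ^ 2 / 2)) with hE
  set l : ℝ := -((-1) ^ n * (E / (v * θ))) with hl
  have hlow := relFisher_lower a hv hn1' θ l
  rw [hθa, h2θa, Real.cos_pi, Real.cos_two_pi, one_pow, mul_one] at hlow
  have hsgn : ((-1 : ℝ) ^ n) * (-1) ^ n = 1 := by
    rw [← mul_pow]; norm_num
  have hvθ : (v : ℝ) * θ ^ 2 ≤ 1 / 2 := by
    rw [hθ, div_pow, mul_pow, Real.sq_sqrt hn0.le, ha2, hvr]
    have hpi : Real.pi ^ 2 ≤ 10 := by nlinarith [Real.pi_lt_d2, Real.pi_pos]
    have h1v : (39 : ℝ) / 40 ≤ 1 - 1 / (40 * n) := by rw [← hvr]; linarith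
    have h2 : 1 / (40 * (n : ℝ)) * (Real.pi ^ 2 * n / (1 - 1 / (40 * n))) =
        Real.pi ^ 2 / 40 / (1 - 1 / (40 * n)) := by
      field_simp
    rw [h2, div_le_iff₀ (by linarith)]
    linarith
  have hE2 : 1 - v * θ ^ 2 ≤ E ^ 2 := by
    have h1 := Real.add_one_le_exp (-(v * θ ^ 2))
    have h2 : E ^ 2 = Real.exp (-(v * θ ^ 2)) := by
      rw [hE, sq, ← Real.exp_add]; ring_nf
    rw [h2]; linarith
  have hE4 : 1 - Real.exp (-(v * (2 * θ) ^ 2 / 2)) ≤ 2 * (v * θ ^ 2) := by
    have h1 := Real.add_one_le_exp (-(v * (2 * θ) ^ 2 / 2))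
    nlinarith
  have hbig : 10 * (n : ℝ) - 1 ≤ -(l * (θ * (E * (-1) ^ n))) -
      l ^ 2 / 2 * ((1 - Real.exp (-(v * (2 * θ) ^ 2 / 2))) / 2) - (a ^ 2 + v) := by
    have h1 : -(l * (θ * (E * (-1) ^ n))) = E ^ 2 / v := by
      have : -(l * (θ * (E * (-1) ^ n))) = ((-1 : ℝ) ^ n * (-1) ^ n) * (E / (v * θ) * θ * E) := by
        rw [hl]; ring
      rw [this, hsgn]
      field_simp
    have h2 : l ^ 2 = E ^ 2 / (v * θ) ^ 2 := by
      have : l ^ 2 = ((-1 : ℝ) ^ n * (-1) ^ n) * (E / (v * θ)) ^ 2 := by rw [hl]; ring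
      rw [this, hsgn, one_mul, div_pow]
    have h3 : l ^ 2 / 2 * ((1 - Real.exp (-(v * (2 * θ) ^ 2 / 2))) / 2) ≤
        l ^ 2 / 2 * (2 * (v * θ ^ 2) / 2) := by gcongr
    have h4 : l ^ 2 / 2 * (2 * (v * θ ^ 2) / 2) = E ^ 2 / (2 * v) := by
      rw [h2]; field_simp
    have h5 : E ^ 2 / v - E ^ 2 / (2 * v) = E ^ 2 / (2 * v) := by field_simp; ring
    have h6 : 10 * (n : ℝ) ≤ E ^ 2 / (2 * v) := by
      rw [le_div_iff₀ (by positivity), hvr]
      have : 10 * (n : ℝ) * (2 * (1 / (40 * n))) = 1 / 2 := by field_simp; norm_num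
      rw [this]
      linarith
    rw [ha2, h1]
    linarith
  have h3 : ENNReal.ofReal (10 * (n : ℝ) - 1) ≤ ENNReal.ofReal (160 * C) := by
    refine (ENNReal.ofReal_le_ofReal hbig).trans (hlow.trans (key.trans ?_))
    refine (mul_le_mul_right hup _).trans ?_
    rw [← ENNReal.ofReal_mul' (by positivity)]
    apply ENNReal.ofReal_le_ofReal
    rw [hvr]
    apply le_of_eq
    field_simp
    ring
  rcases ENNReal.ofReal_le_ofReal_iff'.mp h3 with h | h <;> linarith

end Pool.Agent.Results.MP_e841a3_pr.FisherRateFails
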